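import Pool.Agent.helper64.D2.SpecS

/-!
# Module SZC of project dc
-/

set_option autoImplicit false

open Filter Topology

namespace Pool.Agent.helper64.D2

theorem SZC_c1 (f : ℝ → ℝ) (hf : ContDiff ℝ 2 f) : ContDiff ℝ 1 (deriv f) := by
  have h : ContDiff ℝ (1 + 1) f := by
    rw [show (1 : WithTop ℕ∞) + 1 = 2 from one_add_one_eq_two]
    exact hf
  exact (contDiff_succ_iff_deriv.1 h).2.2

theorem SZC_d1 (g : DD) : Differentiable ℝ (ev g) :=
  (ev_contDiff g).differentiable (by norm_num)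

theorem SZC_d2 (g : DD) : Differentiable ℝ (deriv (ev g)) :=
  (SZC_c1 _ (ev_contDiff g)).differentiable (by norm_num)

theorem SZC_cont (g : DD) : Continuous (d2 (ev g)) :=
  (SZC_c1 _ (ev_contDiff g)).continuous_deriv le_rfl

theorem SZC_left (g : DD) (x : ℝ) (hx : x ≤ 0) : deriv (ev g) x = 1 := by
  have h1 : HasDerivWithinAt (ev g) (deriv (ev g) x) (Set.Iic x) x :=
    ((SZC_d1 g) x).hasDerivAt.hasDerivWithinAt
  have h2 : HasDerivWithinAt (ev g) 1 (Set.Iic x) x := by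
    have h3 : HasDerivWithinAt (fun y : ℝ => y) 1 (Set.Iic x) x := hasDerivWithinAt_id x _
    refine h3.congr (fun y hy => ?_) ?_
    · exact ev_out g y (fun h => absurd h.1 (not_lt.2 ((Set.mem_Iic.1 hy).trans hx)))
    · exact ev_out g x (fun h => absurd h.1 (not_lt.2 hx))
  exact (uniqueDiffWithinAt_Iic x).eq_deriv _ h1 h2

theorem SZC_right (g : DD) (x : ℝ) (hx : 1 ≤ x) : deriv (ev g) x = 1 := by
  have h1 : HasDerivWithinAt (ev g) (deriv (ev g) x) (Set.Ici x) x :=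
    ((SZC_d1 g) x).hasDerivAt.hasDerivWithinAt
  have h2 : HasDerivWithinAt (ev g) 1 (Set.Ici x) x := by
    have h3 : HasDerivWithinAt (fun y : ℝ => y) 1 (Set.Ici x) x := hasDerivWithinAt_id x _
    refine h3.congr (fun y hy => ?_) ?_
    · exact ev_out g y (fun h => absurd h.2 (not_lt.2 (hx.trans (Set.mem_Ici.1 hy))))
    · exact ev_out g x (fun h => absurd h.2 (not_lt.2 hx))
  exact (uniqueDiffWithinAt_Ici x).eq_deriv _ h1 h2

theorem SZC_nonneg (g : DD) (a : ℝ) (h : Sz g a) : 0 ≤ a := (abs_nonneg _).trans (h 0)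

theorem SZC_der (g : DD) (a : ℝ) (h : Sz g a) (x : ℝ) : |deriv (ev g) x - 1| ≤ a := by
  have ha := SZC_nonneg g a h
  rcases le_total x 0 with hx | hx
  · rw [SZC_left g x hx]; simpa using ha
  rcases le_total 1 x with hx1 | hx1
  · rw [SZC_right g x hx1]; simpa using ha
  have h0 : (0 : ℝ) ∈ Set.Icc (0 : ℝ) 1 := ⟨le_rfl, zero_le_one⟩
  have h1 : x ∈ Set.Icc (0 : ℝ) 1 := ⟨hx, hx1⟩
  have h2 := Convex.norm_image_sub_le_of_norm_deriv_le (𝕜 := ℝ) (f := deriv (ev g)) (C := a)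
    (s := Set.Icc (0 : ℝ) 1) (fun y _ => (SZC_d2 g) y) (fun y _ => by
      rw [Real.norm_eq_abs]; exact h y) (convex_Icc _ _) h0 h1
  rw [SZC_left g 0 le_rfl, sub_zero, Real.norm_eq_abs, Real.norm_eq_abs, abs_of_nonneg hx] at h2
  nlinarith

theorem SZC_val (g : DD) (a : ℝ) (h : Sz g a) (x : ℝ) : |ev g x - x| ≤ a := by
  have ha := SZC_nonneg g a h
  by_cases hx : x ∈ Set.Ioo (0 : ℝ) 1
  swap
  · rw [ev_out g x hx]; simpa using ha
  have h0 : (0 : ℝ) ∈ Set.Icc (0 : ℝ) 1 := ⟨le_rfl, zero_le_one⟩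
  have h1 : x ∈ Set.Icc (0 : ℝ) 1 := ⟨hx.1.le, hx.2.le⟩
  have hd : ∀ y : ℝ, HasDerivAt (fun z : ℝ => ev g z - z) (deriv (ev g) y - 1) y := fun y =>
    ((SZC_d1 g) y).hasDerivAt.sub (hasDerivAt_id y)
  have h2 := Convex.norm_image_sub_le_of_norm_deriv_le (𝕜 := ℝ) (f := fun z : ℝ => ev g z - z) (C := a)
    (s := Set.Icc (0 : ℝ) 1) (fun y _ => (hd y).differentiableAt) (fun y _ => by
      rw [Real.norm_eq_abs, (hd y).deriv]; exact SZC_der g a h y) (convex_Icc _ _) h0 h1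
  have h3 : ev g 0 = 0 := ev_out g 0 (by simp)
  simp only [h3, sub_zero, Real.norm_eq_abs] at h2
  rw [abs_of_nonneg hx.1.le] at h2
  have h4 : a * x ≤ a := by nlinarith [hx.2]
  exact h2.trans h4

theorem SZC_chain (g h : DD) (x : ℝ) :
    deriv (ev (g * h)) x = deriv (ev g) (ev h x) * deriv (ev h) x := by
  have h1 : HasDerivAt (fun y : ℝ => ev g (ev h y)) (deriv (ev g) (ev h x) * deriv (ev h) x) x :=
    HasDerivAt.comp x ((SZC_d1 g) (ev h x)).hasDerivAt ((SZC_d1 h) x).hasDerivAt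
  have h2 : ev (g * h) = fun y : ℝ => ev g (ev h y) := by
    funext y; exact ev_mul g h y
  rw [h2]; exact h1.deriv

theorem SZC_chain2 (g h : DD) (x : ℝ) :
    d2 (ev (g * h)) x = d2 (ev g) (ev h x) * deriv (ev h) x ^ 2 + deriv (ev g) (ev h x) * d2 (ev h) x := by
  have h0 : deriv (ev (g * h)) = fun y : ℝ => deriv (ev g) (ev h y) * deriv (ev h) y := by
    funext y; exact SZC_chain g h y
  have h1 : HasDerivAt (fun y : ℝ => deriv (ev g) (ev h y)) (d2 (ev g) (ev h x) * deriv (ev h) x) x :=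
    HasDerivAt.comp x ((SZC_d2 g) (ev h x)).hasDerivAt ((SZC_d1 h) x).hasDerivAt
  have h2 : HasDerivAt (fun y : ℝ => deriv (ev g) (ev h y) * deriv (ev h) y)
      (d2 (ev g) (ev h x) * deriv (ev h) x * deriv (ev h) x + deriv (ev g) (ev h x) * d2 (ev h) x) x :=
    h1.mul ((SZC_d2 h) x).hasDerivAt
  unfold d2 at h2 ⊢
  rw [h0, h2.deriv]
  ring

theorem SZC_mul (g h : DD) (a b : ℝ) (hg : Sz g a) (hh : Sz h b) (hb : b ≤ 1 / 8) :
    Sz (g * h) (a + b + 4 * a * b) := by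
  intro x
  have ha0 := SZC_nonneg g a hg
  have hb0 := SZC_nonneg h b hh
  rw [SZC_chain2]
  have e1 := abs_le.1 (SZC_der h b hh x)
  have e2 := abs_le.1 (SZC_der g a hg (ev h x))
  have e3 := hg (ev h x)
  have e4 := hh x
  have f1 : |deriv (ev h) x ^ 2| ≤ (1 + b) ^ 2 := by
    rw [abs_pow]
    refine pow_le_pow_left₀ (abs_nonneg _) ?_ 2
    rw [abs_le]; constructor <;> linarith [e1.1, e1.2]
  have f2 : |deriv (ev g) (ev h x)| ≤ 1 + a := by
    rw [abs_le]; constructor <;> linarith [e2.1, e2.2]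
  have g1 : |d2 (ev g) (ev h x) * deriv (ev h) x ^ 2| ≤ a * (1 + b) ^ 2 := by
    rw [abs_mul]
    exact mul_le_mul e3 f1 (abs_nonneg _) ha0
  have g2 : |deriv (ev g) (ev h x) * d2 (ev h) x| ≤ (1 + a) * b := by
    rw [abs_mul]
    exact mul_le_mul f2 e4 (abs_nonneg _) (by linarith)
  have g3 := abs_add_le (d2 (ev g) (ev h x) * deriv (ev h) x ^ 2) (deriv (ev g) (ev h x) * d2 (ev h) x)
  have g4 : a * (1 + b) ^ 2 + (1 + a) * b ≤ a + b + 4 * a * b := by
    have : 0 ≤ a * b * (1 - b) := mul_nonneg (mul_nonneg ha0 hb0) (by linarith)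
    nlinarith
  linarith

theorem SZC_inv (g : DD) (a : ℝ) (hg : Sz g a) (ha : a ≤ 1 / 8) : Sz g⁻¹ (2 * a) := by
  intro x
  have ha0 := SZC_nonneg g a hg
  have h1 := SZC_chain g g⁻¹ x
  have h2 := SZC_chain2 g g⁻¹ x
  have hid : ev (g * g⁻¹) = fun y : ℝ => y := by
    funext y; rw [mul_inv_cancel]; exact ev_one y
  have hd1 : deriv (fun y : ℝ => y) = fun _ => (1 : ℝ) := by
    funext y; exact (hasDerivAt_id y).deriv
  have hd2 : d2 (fun y : ℝ => y) x = 0 := by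
    unfold d2; rw [hd1]; simp
  rw [hid, hd1] at h1
  rw [hid, hd2] at h2
  have e2 := abs_le.1 (SZC_der g a hg (ev g⁻¹ x))
  have e3 := hg (ev g⁻¹ x)
  generalize deriv (ev g) (ev g⁻¹ x) = p at h1 h2 e2
  generalize deriv (ev g⁻¹) x = q at h1 h2
  generalize d2 (ev g) (ev g⁻¹ x) = r at h2 e3
  generalize d2 (ev g⁻¹) x = s at h2 ⊢
  have hp : 7 / 8 ≤ p := by linarith [e2.1]
  have hq0 : 0 < q := by
    by_contra hcon
    have : p * q ≤ 0 := mul_nonpos_of_nonneg_of_nonpos (by linarith) (not_lt.1 hcon)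
    have h1' : (1 : ℝ) = p * q := h1
    linarith
  have hq : q ≤ 8 / 7 := by
    have h1' : (1 : ℝ) = p * q := h1
    nlinarith
  have h1' : (1 : ℝ) = p * q := h1
  have hs : s = - (r * q ^ 3) := by
    have : q * (r * q ^ 2 + p * s) = 0 := by rw [← h2, mul_zero]
    have h3 : q * (r * q ^ 2 + p * s) = r * q ^ 3 + (p * q) * s := by ring
    rw [h3, ← h1'] at this
    linarith
  rw [hs, abs_neg, abs_mul]
  have h4 : |q ^ 3| ≤ (8 / 7) ^ 3 := by
    rw [abs_of_nonneg (by positivity)]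
    exact pow_le_pow_left₀ hq0.le hq 3
  calc |r| * |q ^ 3| ≤ a * (8 / 7) ^ 3 := mul_le_mul e3 h4 (abs_nonneg _) ha0
    _ ≤ 2 * a := by nlinarith

theorem SZC_bdd (g : DD) : ∃ a, Sz g a := by
  obtain ⟨C, hC⟩ := (isCompact_Icc (a := (0 : ℝ)) (b := 1)).exists_bound_of_continuousOn
    (f := d2 (ev g)) (SZC_cont g).continuousOn
  refine ⟨max C 0, fun x => ?_⟩
  by_cases hx : x ∈ Set.Icc (0 : ℝ) 1
  · exact (hC x hx).trans (le_max_left _ _)
  have h0 : d2 (ev g) x = 0 := by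
    have h1 : deriv (ev g) =ᶠ[𝓝 x] fun _ => (1 : ℝ) := by
      rcases lt_or_ge x 0 with h | h
      · filter_upwards [eventually_lt_nhds h] with y hy
        exact SZC_left g y hy.le
      · have h' : 1 < x := by
          by_contra hcon
          exact hx ⟨h, not_lt.1 hcon⟩
        filter_upwards [eventually_gt_nhds h'] with y hy
        exact SZC_right g y hy.le
    unfold d2
    rw [h1.deriv_eq]; simp
  rw [h0, abs_zero]; exact le_max_right _ _

theorem SZC_rep (g : DD) (X : ℝ → ℝ) (h : Rep g X) : ContDiff ℝ 2 X ∧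
    (∀ x, x ∉ Set.Ioo (0 : ℝ) 1 → X x = 0) ∧ (∀ x, deriv (ev g) x = 1 + deriv X x) ∧
    ∀ x, d2 (ev g) x = d2 X x := by
  have hX : X = fun x : ℝ => ev g x - x := by
    funext x; rw [h x]; ring
  have hev : ev g = fun x : ℝ => x + X x := by
    funext x; exact h x
  have hc : ContDiff ℝ 2 X := by
    rw [hX]; exact (ev_contDiff g).sub contDiff_id
  have hd : Differentiable ℝ X := hc.differentiable (by norm_num)
  have h1 : ∀ x, deriv (ev g) x = 1 + deriv X x := by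
    intro x
    rw [hev]
    exact ((hasDerivAt_id x).add (hd x).hasDerivAt).deriv
  refine ⟨hc, fun x hx => ?_, h1, fun x => ?_⟩
  · rw [hX]; simp only; rw [ev_out g x hx, sub_self]
  · unfold d2
    have h2 : deriv (ev g) = fun y : ℝ => 1 + deriv X y := by
      funext y; exact h1 y
    rw [h2]
    have h3 : Differentiable ℝ (deriv X) := (SZC_c1 _ hc).differentiable (by norm_num)
    exact ((h3 x).hasDerivAt.const_add 1).deriv

theorem SZC : SZC_stmt := by
  refine ⟨fun g X h => SZC_rep g X h, fun g a h x => ⟨SZC_der g a h x, SZC_val g a h x⟩,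
    fun g h a b hg hh _ hb => SZC_mul g h a b hg hh hb, fun g a hg ha => SZC_inv g a hg ha, SZC_bdd⟩

end Pool.Agent.helper64.D2
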